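import Pool.Agent.R393.SP.Pos

/-!
Arithmetic hyperbolicity.
-/

set_option autoImplicit false

namespace Pool.Agent.R393.SP

open MvPolynomial Pool.Agent.Y377.ST Pool.Agent.R393.UO
open Pool.Agent.H533R3.SL (cur)

variable {A ι ν : Type} [CommRing A] {n : ℕ}

/-- The points of the projective model `F = 0` over the ring `R`, a subring of the field `L`, which
are not zeros of all the forms `G_l`: they have homogeneous coordinates in `R` which generate the
unit ideal of `R`. -/
def modelPts {L : Type} [Field L] (φ : A →+* L) (R : Subalgebra ℤ L)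
    (F : ι → MvPolynomial (Fin (n + 1)) A) (G : ν → MvPolynomial (Fin (n + 1)) A) :
    Set (Projectivization L (Fin (n + 1) → L)) :=
  {P | ∃ x : Fin (n + 1) → L, (∀ j, x j ∈ R) ∧
    (∃ u : Fin (n + 1) → L, (∀ j, u j ∈ R) ∧ ∑ j, u j * x j = 1) ∧
    (∀ i, eval₂ φ x (F i) = 0) ∧ (∃ l, eval₂ φ x (G l) ≠ 0) ∧
    ∃ h : x ≠ 0, P = Projectivization.mk L x h}

/-- Arithmetic hyperbolicity (outside of `G = 0`): over every finitely generated ring `R ⊇ A`
without zero divisors the model has only finitely many `R`-valued points off `G = 0`. -/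
def ArithHyp (F : ι → MvPolynomial (Fin (n + 1)) A) (G : ν → MvPolynomial (Fin (n + 1)) A) : Prop :=
  ∀ (L : Type) [Field L] (φ : A →+* L), Function.Injective φ → ∀ S : Finset L,
    (∀ a, φ a ∈ Algebra.adjoin ℤ (S : Set L)) →
    (modelPts φ (Algebra.adjoin ℤ (S : Set L)) F G).Finite

theorem rat_of_arith [CharZero A] [Algebra.FiniteType ℤ A] {F : ι → MvPolynomial (Fin (n + 1)) A}
    {G : ν → MvPolynomial (Fin (n + 1)) A} (hF : ∀ i, ∃ d, (F i).IsHomogeneous d)
    (hG : ∀ l, ∃ d, (G l).IsHomogeneous d) (h : ArithHyp F G) : RatInA F G := by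
  classical
  intro L _ φ hφ p0 hp0 hc0 l
  by_contra hG0
  have hL : CharZero L := by
    refine charZero_of_inj_zero fun N hN => ?_
    have h1 : φ (N : A) = 0 := by rw [map_natCast]; exact hN
    have h2 := (injective_iff_map_eq_zero φ).1 hφ _ h1
    exact_mod_cast h2
  have hnr : ¬ Pool.Agent.R849.PR.RatIn (fun i => map φ (F i)) (fun l => map φ (G l)) :=
    fun h1 => hG0 (h1 L p0 hp0 hc0 l)
  obtain ⟨L', _, _, p, l0, hp, ⟨i0, j0, hc⟩, hGp⟩ := Pool.Agent.R849.PR.curve_of_not _ _ hnr
  have hL' : CharZero L' := charZero_of_injective_algebraMap (algebraMap L L').injective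
  let φ' : A →+* L' := (algebraMap L L').comp φ
  have hφ' : Function.Injective φ' := (algebraMap L L').injective.comp hφ
  have hp' : ∀ i, aeval p (map φ' (F i)) = 0 := by
    intro i
    rw [← hp i, ← map_map, aeval_map_algebraMap]
  have hG' : aeval (fun i => (p i).eval 1) (map φ' (G l0)) ≠ 0 := by
    intro h0
    apply hGp
    rw [← h0, ← map_map, aeval_map_algebraMap]
  -- division by the greatest common divisor
  have hpne : ∃ i, p i ≠ 0 := by
    by_contra hcon
    push Not at hcon
    apply hc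
    rw [hcon, hcon]
  obtain ⟨g, hg⟩ := (IsPrincipalIdealRing.principal (Ideal.span (Set.range p))).principal
  have hgm : ∀ i, ∃ q, p i = g * q := by
    intro i
    have h1 : p i ∈ Ideal.span (Set.range p) := Ideal.subset_span ⟨i, rfl⟩
    rw [hg] at h1
    obtain ⟨q, hq⟩ := Submodule.mem_span_singleton.1 h1
    exact ⟨q, by rw [← hq, smul_eq_mul, mul_comm]⟩
  have hg0 : g ≠ 0 := by
    obtain ⟨i, hi⟩ := hpne
    obtain ⟨q, hq⟩ := hgm i
    intro h0
    rw [h0, zero_mul] at hq
    exact hi hq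
  choose q hq using hgm
  have hgs : g ∈ Ideal.span (Set.range p) := by
    rw [hg]
    exact Submodule.mem_span_singleton_self g
  obtain ⟨u, hu⟩ := (Ideal.mem_span_range_iff_exists_fun).1 hgs
  have hu1 : ∑ i, u i * q i = 1 := by
    apply mul_left_cancel₀ hg0
    rw [mul_one, Finset.mul_sum]
    rw [← hu] 
    conv_rhs => rw [hu]
    rw [← hu]
    refine Finset.sum_congr rfl fun i _ => ?_
    rw [hu, hq i]
    ring
  have hpq : p = fun i => g * q i := funext hq
  have hFq : ∀ i, aeval q (map φ' (F i)) = 0 := by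
    intro i
    obtain ⟨d, hd⟩ := hF i
    have h1 := hp' i
    rw [hpq, Pool.Agent.Y837.ST.aeval_scale g q (hd.map φ')] at h1
    exact (mul_eq_zero.1 h1).resolve_left (pow_ne_zero _ hg0)
  have hGq : aeval (fun i => (q i).eval 1) (map φ' (G l0)) ≠ 0 := by
    obtain ⟨d, hd⟩ := hG l0
    intro h0
    apply hG'
    have h1 : (fun i => (p i).eval 1) = fun i => g.eval 1 * (q i).eval 1 := by
      funext i
      rw [hq i, Polynomial.eval_mul]
    rw [h1, Pool.Agent.Y837.ST.aeval_scale (g.eval 1) _ (hd.map φ'), h0, mul_zero]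
  have hcq : q i0 * Polynomial.C ((q j0).eval 1) ≠ q j0 * Polynomial.C ((q i0).eval 1) := by
    intro h0
    apply hc
    rw [hq i0, hq j0, Polynomial.eval_mul, Polynomial.eval_mul, Polynomial.C_mul, Polynomial.C_mul]
    linear_combination g * Polynomial.C (g.eval 1) * h0
  obtain ⟨TT, hTT⟩ := (Algebra.FiniteType.out : (⊤ : Subalgebra ℤ A).FG)
  let S : Finset L' := TT.image φ' ∪ ((Finset.univ.biUnion fun i => (q i).coeffs) ∪
    (Finset.univ.biUnion fun i => (u i).coeffs))
  let R' := Algebra.adjoin ℤ (S : Set L')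
  have hS : ∀ s ∈ S, s ∈ R' := fun s hs => Algebra.subset_adjoin (Finset.mem_coe.2 hs)
  have hA : ∀ x : A, φ' x ∈ R' := by
    intro x
    have h1 : x ∈ Algebra.adjoin ℤ (TT : Set A) := by rw [hTT]; exact Algebra.mem_top
    induction h1 using Algebra.adjoin_induction with
    | mem x hx =>
      exact hS _ (Finset.mem_union_left _ (Finset.mem_image.2 ⟨x, hx, rfl⟩))
    | algebraMap z =>
      have h2 : φ' (algebraMap ℤ A z) = algebraMap ℤ L' z := by simp
      rw [h2]
      exact Subalgebra.algebraMap_mem _ _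
    | add x y _ _ hx hy => rw [map_add]; exact add_mem hx hy
    | mul x y _ _ hx hy => rw [map_mul]; exact mul_mem hx hy
  have hevm : ∀ (P : Polynomial L'), (∀ m, P.coeff m ∈ R') → ∀ m : ℤ, P.eval (m : L') ∈ R' := by
    intro P hP m
    rw [Polynomial.eval_eq_sum_range]
    exact sum_mem fun j _ => mul_mem (hP j) (pow_mem (intCast_mem R' m) j)
  have hqR : ∀ i m, (q i).coeff m ∈ R' := by
    intro i m
    by_cases h0 : (q i).coeff m = 0
    · rw [h0]
      exact zero_mem _
    · exact hS _ (Finset.mem_union_right _ (Finset.mem_union_left _ (Finset.mem_biUnion.2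
        ⟨i, Finset.mem_univ _, Polynomial.coeff_mem_coeffs h0⟩)))
  have huR : ∀ i m, (u i).coeff m ∈ R' := by
    intro i m
    by_cases h0 : (u i).coeff m = 0
    · rw [h0]
      exact zero_mem _
    · exact hS _ (Finset.mem_union_right _ (Finset.mem_union_right _ (Finset.mem_biUnion.2
        ⟨i, Finset.mem_univ _, Polynomial.coeff_mem_coeffs h0⟩)))
  have hfin := h L' φ' hφ' S hA
  obtain ⟨M, -, hM⟩ := Pool.Agent.R849.PR.exists_coeff_bound q
  have hinf := Pool.Agent.R849.PR.pts_inf (k := L') (fun i => map φ' (F i))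
    (fun l => map φ' (G l)) l0 (L := L')
    (fun (j : Fin M) a => (q a).coeff j) (by rw [hM]; exact hFq)
    (by rw [hM]; exact ⟨i0, j0, hcq⟩) (by rw [hM]; exact hGq) (Set.range fun m : ℤ => (m : L'))
    (Set.infinite_range_of_injective Int.cast_injective)
  apply hinf
  refine hfin.subset ?_
  rintro Q ⟨t, ⟨_, ⟨z, rfl⟩, ht⟩, h1, ⟨l, h2⟩, h3, h4⟩
  have e1 : (fun a => ∑ j : Fin M, t j * (q a).coeff j) = fun a => (q a).eval ((z : ℤ) : L') := by
    funext a
    have h5 := congrFun hM a
    conv_rhs => rw [← h5]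
    unfold Pool.Agent.H533R3.SL.cur
    rw [Polynomial.eval_finsetSum]
    refine Finset.sum_congr rfl fun j _ => ?_
    rw [ht j, Polynomial.eval_mul, Polynomial.eval_C, Polynomial.eval_pow, Polynomial.eval_X]
    ring
  refine ⟨fun a => (q a).eval ((z : ℤ) : L'), fun j => hevm _ (hqR j) z,
    ⟨fun j => (u j).eval ((z : ℤ) : L'), fun j => hevm _ (huR j) z, ?_⟩, fun i => ?_, ⟨l, ?_⟩,
    ?_, ?_⟩
  · have h5 := congrArg (Polynomial.eval ((z : ℤ) : L')) hu1
    rw [Polynomial.eval_finsetSum, Polynomial.eval_one] at h5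
    rw [← h5]
    exact Finset.sum_congr rfl fun j _ => (Polynomial.eval_mul).symm
  · have h5 := h1 i
    rw [e1, aeval_def, eval₂_map] at h5
    exact h5
  · rw [e1, aeval_def, eval₂_map] at h2
    exact h2
  · intro h5
    apply h3
    rw [e1]
    exact h5
  · rw [h4]
    congr 1

end Pool.Agent.R393.SP
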