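import Pool.Agent.R393.UO.Des

/-!
Products of fields, limits, families.
-/

set_option autoImplicit false

namespace Pool.Agent.R393.SP

open MvPolynomial Pool.Agent.Y377.ST Cardinal

section theta

variable (E : ℕ → Type) [∀ T, Field (E T)]

/-- the ideal of the sequences with finitely many nonzero terms -/
def JD : Ideal (∀ T, E T) where
  carrier := {f | ∃ n, ∀ i, n ≤ i → f i = 0}
  add_mem' := by
    rintro f g ⟨n, hn⟩ ⟨n', hn'⟩
    refine ⟨max n n', fun i hi => ?_⟩
    rw [Pi.add_apply, hn i ((le_max_left _ _).trans hi), hn' i ((le_max_right _ _).trans hi),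
      add_zero]
  zero_mem' := ⟨0, fun i _ => rfl⟩
  smul_mem' := by
    rintro c f ⟨n, hn⟩
    refine ⟨n, fun i hi => ?_⟩
    rw [smul_eq_mul, Pi.mul_apply, hn i hi, mul_zero]

theorem JD_ne : JD E ≠ ⊤ := by
  rw [Ideal.ne_top_iff_one]
  rintro ⟨n, hn⟩
  exact one_ne_zero (hn n le_rfl)

/-- fields of characteristic zero with at most continuum many elements -/
theorem emb_of_card (K : Type) [Field K] [CharZero K] (hK : #K ≤ 𝔠) : Nonempty (K →+* ℂ) := by
  let R := MvPolynomial ℝ K
  let K' := FractionRing R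
  let M := AlgebraicClosure K'
  have hR : #R = 𝔠 := by
    rw [MvPolynomial.cardinalMk_eq_max, Cardinal.mk_real]
    have h2 : (ℵ₀ : Cardinal.{0}) ≤ 𝔠 := Cardinal.aleph0_le_continuum
    rw [max_eq_right hK, max_eq_left h2]
  have hK' : #K' = 𝔠 := by
    rw [← hR]
    exact IsFractionRing.cardinalMk R K'
  have hM : #M = 𝔠 := by
    apply le_antisymm
    · have h1 := Algebra.IsAlgebraic.cardinalMk_le_max K' M
      rw [hK', max_eq_left Cardinal.aleph0_le_continuum] at h1
      exact h1
    · rw [← hK']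
      exact Cardinal.mk_le_of_injective (algebraMap K' M).injective
  have hch : CharZero M := by
    have h1 : CharZero R := by infer_instance
    have h2 : CharZero K' := IsFractionRing.charZero R
    infer_instance
  have h3 : Nonempty (M ≃ ℂ) := by
    rw [← Cardinal.eq, hM, Cardinal.mk_complex]
  obtain ⟨e⟩ := IsAlgClosed.ringEquiv_of_equiv_of_charZero
    (by rw [hM]; exact Cardinal.aleph0_lt_continuum) h3
  exact ⟨e.toRingHom.comp ((algebraMap K' M).comp ((algebraMap R K').comp MvPolynomial.C))⟩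

/-- a homomorphism from a product of countable fields, the characteristics of which are zero or tend
to infinity, to the complex numbers, which kills the sequences with finitely many nonzero terms -/
theorem theta_dep [∀ T, Countable (E T)]
    (hchar : ∀ N : ℕ, N ≠ 0 → ∃ T0, ∀ T, T0 ≤ T → ((N : ℕ) : E T) ≠ 0) :
    ∃ Θ : (∀ T, E T) →+* ℂ, ∀ f : ∀ T, E T, (∃ n, ∀ i, n ≤ i → f i = 0) → Θ f = 0 := by
  classical
  obtain ⟨m, hm, hJm⟩ := Ideal.exists_le_maximal (JD E) (JD_ne E)
  let _ : Field ((∀ T, E T) ⧸ m) := Ideal.Quotient.field m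
  have hcz : CharZero ((∀ T, E T) ⧸ m) := by
    refine charZero_of_inj_zero fun p h0 => ?_
    by_contra hp
    obtain ⟨T0, hT0⟩ := hchar p hp
    have h1 : ((p : ℕ) : (∀ T, E T)) ∈ m := by
      rw [← Ideal.Quotient.eq_zero_iff_mem, map_natCast]
      exact h0
    let w : ∀ T, E T := fun T => ((p : ℕ) : E T)⁻¹
    have h2 : (1 - w * ((p : ℕ) : (∀ T, E T))) ∈ m := by
      apply hJm
      refine ⟨T0, fun T hT => ?_⟩
      change 1 - ((p : ℕ) : E T)⁻¹ * ((p : ℕ) : E T) = 0
      rw [inv_mul_cancel₀ (hT0 T hT), sub_self]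
    have h3 : (1 : ∀ T, E T) ∈ m := by
      have h4 := m.add_mem h2 (m.mul_mem_left w h1)
      rwa [sub_add_cancel] at h4
    exact hm.ne_top ((Ideal.eq_top_iff_one m).2 h3)
  have hQ : #((∀ T, E T) ⧸ m) ≤ 𝔠 := by
    refine (Cardinal.mk_le_of_surjective (Ideal.Quotient.mk_surjective (I := m))).trans ?_
    rw [Cardinal.mk_pi]
    refine (Cardinal.prod_le_prod _ (fun _ => ℵ₀) fun T => Cardinal.mk_le_aleph0_iff.2 inferInstance).trans ?_
    rw [Cardinal.prod_const]
    simp
  obtain ⟨φ⟩ := emb_of_card _ hQ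
  refine ⟨φ.comp (Ideal.Quotient.mk m), fun f hf => ?_⟩
  have h1 : Ideal.Quotient.mk m f = 0 := Ideal.Quotient.eq_zero_iff_mem.2 (hJm hf)
  rw [RingHom.comp_apply, h1, map_zero]

variable {E}

/-- nonvanishing sequences -/
theorem theta_neD {Θ : (∀ T, E T) →+* ℂ}
    (hΘ : ∀ f : ∀ T, E T, (∃ n, ∀ i, n ≤ i → f i = 0) → Θ f = 0) {ι : Type} [Fintype ι]
    (f : ι → ∀ T, E T) (n : ℕ) (h : ∀ i, n ≤ i → ∃ j, f j i ≠ 0) : ∃ j, Θ (f j) ≠ 0 := by
  classical
  by_contra hcon
  push Not at hcon
  obtain ⟨j0, -⟩ := h n le_rfl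
  have h' : ∀ i, ∃ j, n ≤ i → f j i ≠ 0 := by
    intro i
    by_cases hi : n ≤ i
    · obtain ⟨j, hj⟩ := h i hi
      exact ⟨j, fun _ => hj⟩
    · exact ⟨j0, fun h1 => absurd h1 hi⟩
  choose J hJ using h'
  let u : ι → ∀ T, E T := fun j i => if J i = j then (f j i)⁻¹ else 0
  have h1 : Θ (∑ j, u j * f j) = 0 := by
    rw [map_sum]
    exact Finset.sum_eq_zero fun j _ => by rw [map_mul, hcon j, mul_zero]
  have h2 : Θ (1 - ∑ j, u j * f j) = 0 := by
    apply hΘ
    refine ⟨n, fun i hi => ?_⟩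
    have h3 : (∑ j, u j * f j) i = 1 := by
      rw [Finset.sum_apply, Finset.sum_eq_single (J i)]
      · change (if J i = J i then (f (J i) i)⁻¹ else 0) * f (J i) i = 1
        rw [if_pos rfl, inv_mul_cancel₀ (hJ i hi)]
      · intro j _ hj
        change (if J i = j then (f j i)⁻¹ else 0) * f j i = 0
        rw [if_neg (Ne.symm hj), zero_mul]
      · intro h4
        exact absurd (Finset.mem_univ _) h4
    change 1 - (∑ j, u j * f j) i = 0
    rw [h3, sub_self]
  rw [map_sub, map_one, h1, sub_zero] at h2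
  exact one_ne_zero h2

end theta

section prod

variable {I : Type} {Hs : I → Type} [∀ a, Group (Hs a)] {A : I → Type} [∀ a, CommRing (A a)]
  {s r e n : ℕ}

theorem pev_applyD {ι : Type} [Fintype ι] [DecidableEq ι] (c : (ι → Fin (e + 1)) → ∀ a, A a)
    (v : ι → ∀ a, A a) (a : I) : pev c v a = pev (fun m => c m a) (fun i => v i a) :=
  map_pev (Pi.evalRingHom A a) c v

theorem IterD {X Y : ∀ a, Fin s → Hs a → Matrix (Fin r) (Fin r) (A a)}
    (hX : ∀ a, Iter e (X a) (Y a)) :
    Iter e (L := ∀ a, A a) (fun l (h : ∀ a, Hs a) => Matrix.of fun i j (a : I) => X a l (h a) i j)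
      (fun l (h : ∀ a, Hs a) => Matrix.of fun i j (a : I) => Y a l (h a) i j) where
  inv := fun l h => by
    ext i j a
    have h1 := congrFun (congrFun ((hX a).inv l (h a)) i) j
    rw [Matrix.mul_apply] at h1
    rw [Matrix.mul_apply, Finset.sum_apply]
    change ∑ k, X a l (h a) i k * Y a l (h a) k j = _
    rw [h1, Matrix.one_apply, Matrix.one_apply]
    split_ifs <;> rfl
  coc := fun l g i j => by
    choose c hc using fun a => (hX a).coc l (g a) i j
    refine ⟨fun m a => c a m, fun h => ?_⟩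
    funext a
    rw [pev_applyD]
    have h1 := hc a (h a)
    rw [Matrix.mul_apply] at h1
    rw [Matrix.mul_apply, Finset.sum_apply]
    change ∑ k, X a l (g a * h a) i k * Y a l (h a) k j = _
    rw [h1]
    congr 1
    funext v
    unfold before entries
    by_cases hb : v.1 < l
    · rw [if_pos hb, if_pos hb]
      by_cases hb' : v.2.1 = true
      · rw [if_pos hb', if_pos hb']
        rfl
      · rw [if_neg hb', if_neg hb']
        rfl
    · rw [if_neg hb, if_neg hb]
      rfl

theorem IterVecD {x : ∀ a, Hs a → Fin n → A a} (hx : ∀ a, IterVec s r e (x a)) :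
    IterVec s r e (L := ∀ a, A a) fun (h : ∀ a, Hs a) j a => x a (h a) j := by
  choose X Y hX hc using hx
  refine ⟨_, _, IterD hX, fun j => ?_⟩
  choose c hc using fun a => hc a j
  refine ⟨fun m a => c a m, fun h => ?_⟩
  funext a
  change x a (h a) j = _
  rw [pev_applyD, hc a (h a)]
  congr 1
  funext v
  unfold entries
  by_cases hb' : v.2.1 = true
  · rw [if_pos hb', if_pos hb']
    rfl
  · rw [if_neg hb', if_neg hb']
    rfl

end prod

end Pool.Agent.R393.SP
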