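import Pool.Agent.R393.SP.Dep
import Pool.Agent.R393.UO.Num

/-!
Families of points on the fibres of a model.
-/

set_option autoImplicit false

namespace Pool.Agent.R393.SP

open MvPolynomial Pool.Agent.Y377.EL Pool.Agent.Y377.IL Pool.Agent.Y377.IR Pool.Agent.Y377.ST
open Pool.Agent.R393.UO

section defs

variable {A ι ν : Type} [CommRing A] {n : ℕ}

/-- Over all fields `L` which contain `A`, all nonconstant polynomial maps from the line to the
variety `F = 0` have image in `G = 0`. -/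
def RatInA (F : ι → MvPolynomial (Fin (n + 1)) A) (G : ν → MvPolynomial (Fin (n + 1)) A) : Prop :=
  ∀ (L : Type) [Field L] (φ : A →+* L), Function.Injective φ → ∀ p : Fin (n + 1) → Polynomial L,
    (∀ i, aeval p (map φ (F i)) = 0) →
    (∃ t s i j, (p i).eval t * (p j).eval s ≠ (p j).eval t * (p i).eval s) →
    ∀ l, aeval p (map φ (G l)) = 0

/-- The points with the homogeneous coordinates `x(h)`, `x(h) ≠ 0`, over the field `K` with the
homomorphism `φ : A → K`, which are not zeros of all the forms `G_l`. -/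
def offV {K H : Type} [Field K] (φ : A →+* K) (G : ν → MvPolynomial (Fin (n + 1)) A)
    (x : H → Fin (n + 1) → K) : Set (Projectivization K (Fin (n + 1) → K)) :=
  {P | ∃ (h : H) (h0 : x h ≠ 0), (∃ l, eval₂ φ (x h) (G l) ≠ 0) ∧
    P = Projectivization.mk K (x h) h0}

/-- For all `s, r, e` there are a nonzero element `a` of `A` and a number `B` such that for all
fields `K` and all homomorphisms `φ : A → K` with `φ a ≠ 0` all families given by iterated
recurrences of complexity `(s, r, e)`, over `K`, on the fibre of `F = 0`, have at most `B` points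
off `G = 0`. -/
def FibresBounded (F : ι → MvPolynomial (Fin (n + 1)) A) (G : ν → MvPolynomial (Fin (n + 1)) A) :
    Prop :=
  ∀ s r e : ℕ, ∃ a : A, a ≠ 0 ∧ ∃ B : ℕ, ∀ (K : Type) [Field K] (φ : A →+* K), φ a ≠ 0 →
    ∀ (H : Type) [Group H] (x : H → Fin (n + 1) → K), IterVec s r e x →
      (∀ h i, eval₂ φ (x h) (F i) = 0) → (offV φ G x).encard ≤ B

end defs

section main

variable {A ι ν : Type} [CommRing A] [Countable A] {n : ℕ}
  {F : ι → MvPolynomial (Fin (n + 1)) A} {G : ν → MvPolynomial (Fin (n + 1)) A}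

theorem exists_membersV {K : Type} [Field K] {φ : A →+* K} {H : Type}
    {x : H → Fin (n + 1) → K} {T : ℕ} (h : (T : ℕ∞) < (offV φ G x).encard) :
    ∃ hs : ℕ → H, (∀ j, j ≤ T → ∃ l, eval₂ φ (x (hs j)) (G l) ≠ 0) ∧
      (∀ j, j ≤ T → x (hs j) ≠ 0) ∧
      ∀ j j', j ≤ T → j' ≤ T → j ≠ j' →
        ∃ u v, x (hs j) u * x (hs j') v ≠ x (hs j) v * x (hs j') u := by
  have h1 : offV φ G x = offPts (fun l => map φ (G l)) x := by
    ext P
    unfold offV offPts
    simp only [Set.mem_setOf_eq, aeval_def, eval₂_map, Algebra.algebraMap_self, RingHom.id_comp]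
  rw [h1] at h
  obtain ⟨hs, h2, h3, h4⟩ := exists_members' h
  refine ⟨hs, fun j hj => ?_, h3, h4⟩
  obtain ⟨l, hl⟩ := h2 j hj
  refine ⟨l, ?_⟩
  simpa only [aeval_def, eval₂_map, Algebra.algebraMap_self, RingHom.id_comp] using hl

/-- countable fields -/
theorem to_countable {s r e : ℕ} {K : Type} [Field K] {φ : A →+* K} {b : A} (hb : φ b ≠ 0)
    {H : Type} [Group H] {x : H → Fin (n + 1) → K} (hx : IterVec s r e x)
    (hX : ∀ h i, eval₂ φ (x h) (F i) = 0) {T : ℕ} (h : (T : ℕ∞) < (offV φ G x).encard) :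
    ∃ (K' : Type) (_ : Field K') (_ : Countable K') (φ' : A →+* K')
      (x' : FreeGroup ℕ → Fin (n + 1) → K'), φ' b ≠ 0 ∧ IterVec s r e x' ∧
      (∀ h i, eval₂ φ' (x' h) (F i) = 0) ∧
      (∀ j, j ≤ T → ∃ l, eval₂ φ' (x' (FreeGroup.of j)) (G l) ≠ 0) ∧
      (∀ j, j ≤ T → x' (FreeGroup.of j) ≠ 0) ∧
      ∀ j j', j ≤ T → j' ≤ T → j ≠ j' → ∃ u v, x' (FreeGroup.of j) u * x' (FreeGroup.of j') v ≠
        x' (FreeGroup.of j) v * x' (FreeGroup.of j') u := by
  classical
  obtain ⟨hs, m1, m2, m3⟩ := exists_membersV h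
  let ψ : FreeGroup ℕ →* H := FreeGroup.lift hs
  have hψ : ∀ j, ψ (FreeGroup.of j) = hs j := fun j => FreeGroup.lift_apply_of
  have hcF : Countable (FreeGroup ℕ) := by
    unfold FreeGroup
    infer_instance
  obtain ⟨K', hK', hSK, x0, hx0, hxx⟩ := IterVec.descend (IterVec.comap ψ hx) (Set.range φ)
    (Set.countable_range _)
  let φ' : A →+* K' := φ.codRestrict K' fun a => hSK ⟨a, rfl⟩
  have hφ' : K'.subtype.comp φ' = φ := RingHom.ext fun a => rfl
  have hev : ∀ (P : MvPolynomial (Fin (n + 1)) A) h,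
      K'.subtype (eval₂ φ' (x0 h) P) = eval₂ φ (x (ψ h)) P := by
    intro P h
    rw [hom_eval₂, hφ']
    congr 1
    funext j
    exact hxx h j
  refine ⟨K', inferInstance, hK', φ', x0, ?_, hx0, fun h i => ?_, fun j hj => ?_, fun j hj => ?_,
    fun j j' hj hj' hne => ?_⟩
  · intro h0
    apply hb
    rw [← hφ', RingHom.comp_apply, h0, map_zero]
  · apply K'.subtype.injective
    rw [hev, map_zero]
    exact hX _ i
  · obtain ⟨l, hl⟩ := m1 j hj
    refine ⟨l, fun h0 => hl ?_⟩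
    have h1 := hev (G l) (FreeGroup.of j)
    rw [h0, map_zero, hψ] at h1
    exact h1.symm
  · intro h2
    apply m2 j hj
    funext u
    have h5 := hxx (FreeGroup.of j) u
    rw [h2, hψ] at h5
    exact h5.symm
  · obtain ⟨u, v, huv⟩ := m3 j j' hj hj' hne
    refine ⟨u, v, fun h2 => huv ?_⟩
    have h3 := congrArg K'.subtype h2
    rw [map_mul, map_mul] at h3
    change ((x0 (FreeGroup.of j) u : K') : K) * (x0 (FreeGroup.of j') v : K') =
      (x0 (FreeGroup.of j) v : K') * (x0 (FreeGroup.of j') u : K') at h3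
    rw [hxx, hxx, hxx, hxx, hψ, hψ] at h3
    exact h3

variable [IsDomain A] [CharZero A] [Finite ν]

/-- **Families on the fibres.** -/
theorem fibres (hF : ∀ i, ∃ d, (F i).IsHomogeneous d) (hG : ∀ l, ∃ d, (G l).IsHomogeneous d)
    (hrat : RatInA F G) : FibresBounded F G := by
  classical
  have := Fintype.ofFinite ν
  intro s r e
  by_contra hcon
  have hC : ∀ a : A, a ≠ 0 → ∀ B : ℕ, ∃ (K : Type) (_ : Field K) (φ : A →+* K) (_ : φ a ≠ 0)
      (H : Type) (_ : Group H) (x : H → Fin (n + 1) → K), IterVec s r e x ∧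
        (∀ h i, eval₂ φ (x h) (F i) = 0) ∧ (B : ℕ∞) < (offV φ G x).encard := by
    intro a ha B
    by_contra h1
    apply hcon
    refine ⟨a, ha, B, fun K _ φ hφ H _ x hx hX => ?_⟩
    by_contra h2
    exact h1 ⟨K, inferInstance, φ, hφ, H, inferInstance, x, hx, hX, not_le.1 h2⟩
  let S : Type := {a : A // a ≠ 0}
  have hne : Nonempty S := ⟨⟨1, one_ne_zero⟩⟩
  obtain ⟨en, hen⟩ := exists_surjective_nat S
  let b : ℕ → A := fun T => ∏ j ∈ Finset.range (T + 1), (en j).1
  have hb : ∀ T, b T ≠ 0 := fun T => Finset.prod_ne_zero_iff.2 fun j _ => (en j).2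
  have hD : ∀ T : ℕ, ∃ (K' : Type) (_ : Field K') (_ : Countable K') (φ' : A →+* K')
      (x' : FreeGroup ℕ → Fin (n + 1) → K'), φ' (b T) ≠ 0 ∧ IterVec s r e x' ∧
      (∀ h i, eval₂ φ' (x' h) (F i) = 0) ∧
      (∀ j, j ≤ T → ∃ l, eval₂ φ' (x' (FreeGroup.of j)) (G l) ≠ 0) ∧
      (∀ j, j ≤ T → x' (FreeGroup.of j) ≠ 0) ∧
      ∀ j j', j ≤ T → j' ≤ T → j ≠ j' → ∃ u v, x' (FreeGroup.of j) u * x' (FreeGroup.of j') v ≠
        x' (FreeGroup.of j) v * x' (FreeGroup.of j') u := by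
    intro T
    obtain ⟨K, _, φ, hφ, H, _, x, hx, hX, hT⟩ := hC (b T) (hb T) T
    exact to_countable hφ hx hX hT
  choose K iF iC φ x hφb hx hX hGne h0 hnp using hD
  have hφ : ∀ a : A, a ≠ 0 → ∃ T0, ∀ T, T0 ≤ T → φ T a ≠ 0 := by
    intro a ha
    obtain ⟨j, hj⟩ := hen ⟨a, ha⟩
    refine ⟨j, fun T hT h1 => hφb T ?_⟩
    change φ T (∏ j ∈ Finset.range (T + 1), (en j).1) = 0
    rw [map_prod]
    refine Finset.prod_eq_zero (Finset.mem_range.2 (Nat.lt_succ_of_le hT)) ?_
    rw [hj]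
    exact h1
  obtain ⟨Θ, hΘ⟩ := theta_dep K (by
    intro N hN
    obtain ⟨T0, hT0⟩ := hφ (N : A) (Nat.cast_ne_zero.2 hN)
    refine ⟨T0, fun T hT => ?_⟩
    have h1 := hT0 T hT
    rwa [map_natCast] at h1)
  let σs : A →+* ℂ := Θ.comp (RingHom.pi φ)
  have hσ : Function.Injective σs := by
    refine (injective_iff_map_eq_zero σs).2 fun a ha => ?_
    by_contra hne
    obtain ⟨T0, hT0⟩ := hφ a hne
    obtain ⟨-, h1⟩ := theta_neD hΘ (fun _ : Unit => fun T => φ T a) T0
      (fun T hT => ⟨(), hT0 T hT⟩)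
    exact h1 ha
  let xs : (ℕ → FreeGroup ℕ) → Fin (n + 1) → ℂ := fun h j => Θ fun T => x T (h T) j
  have hxs : IterVec s r e xs :=
    (IterVecD (Hs := fun _ : ℕ => FreeGroup ℕ) (A := K) (x := x) hx).map Θ
  have key : ∀ (P : MvPolynomial (Fin (n + 1)) A) (h : ℕ → FreeGroup ℕ),
      eval (xs h) (map σs P) = Θ fun T => eval₂ (φ T) (x T (h T)) P := by
    intro P h
    have h1 := eval₂_comp_left Θ (RingHom.pi φ) (fun j T => x T (h T) j) P
    have h2 : eval₂ (RingHom.pi φ) (fun j T => x T (h T) j) P =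
        fun T => eval₂ (φ T) (x T (h T)) P := by
      funext T
      have h3 := eval₂_comp_left (Pi.evalRingHom K T) (RingHom.pi φ)
        (fun j T => x T (h T) j) P
      exact h3
    rw [h2] at h1
    rw [eval_map]
    exact h1.symm
  let a : ℕ → ℕ → FreeGroup ℕ := fun m _ => FreeGroup.of m
  have hzero : ∀ i h, eval (xs h) (map σs (F i)) = 0 := by
    intro i h
    rw [key]
    have h1 : (fun T => eval₂ (φ T) (x T (h T)) (F i)) = 0 := funext fun T => hX T (h T) i
    rw [h1, map_zero]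
  have hnz : ∀ m, ∃ l, eval (xs (a m)) (map σs (G l)) ≠ 0 := by
    intro m
    obtain ⟨l, hl⟩ := theta_neD hΘ (fun l T => eval₂ (φ T) (x T (a m T)) (G l)) m
      (fun T hT => hGne T m hT)
    exact ⟨l, by rw [key]; exact hl⟩
  have hxne : ∀ m, ∃ l, xs (a m) l ≠ 0 := fun m =>
    theta_neD hΘ (fun l i => x i (a m i) l) m fun i hi => Function.ne_iff.1 (h0 i m hi)
  have hcross : ∀ m m', m ≠ m' → ∃ u v, xs (a m) u * xs (a m') v ≠ xs (a m) v * xs (a m') u := by
    intro m m' hmm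
    obtain ⟨⟨u, v⟩, h1⟩ := theta_neD hΘ (fun (p : Fin (n + 1) × Fin (n + 1)) i =>
      x i (a m i) p.1 * x i (a m' i) p.2 - x i (a m i) p.2 * x i (a m' i) p.1) (max m m')
      (fun i hi => by
        obtain ⟨u, v, h1⟩ := hnp i m m' ((le_max_left _ _).trans hi) ((le_max_right _ _).trans hi) hmm
        exact ⟨(u, v), sub_ne_zero.2 h1⟩)
    refine ⟨u, v, fun h2 => h1 ?_⟩
    have h3 : (fun i => x i (a m i) u * x i (a m' i) v - x i (a m i) v * x i (a m' i) u) =
        (fun i => x i (a m i) u) * (fun i => x i (a m' i) v) -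
          (fun i => x i (a m i) v) * (fun i => x i (a m' i) u) := rfl
    change Θ (fun i => x i (a m i) u * x i (a m' i) v - x i (a m i) v * x i (a m' i) u) = 0
    rw [h3, map_sub, map_mul, map_mul]
    exact sub_eq_zero.2 h2
  obtain ⟨R, hR, hmem⟩ := hxs.tow
  obtain ⟨Nn, hn, hfi, hres⟩ := exists_res fhyp hR
  have hq : Finite ((ℕ → FreeGroup ℕ) ⧸ Nn) := inferInstance
  obtain ⟨m, m', hmm, hmk⟩ := Finite.exists_ne_map_eq_of_infinite
    fun m : ℕ => (QuotientGroup.mk (a m) : (ℕ → FreeGroup ℕ) ⧸ Nn)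
  have hco : a m' * (a m)⁻¹ ∈ Nn := hn.mem_comm (QuotientGroup.eq.1 hmk)
  obtain ⟨l, hl⟩ := hxne m
  obtain ⟨u, v, huv⟩ := hcross m m' hmm
  obtain ⟨K0, i1, i2, Γ, ρ, hρ⟩ := hres (a m)
  obtain ⟨M, j1, j2, q, hq1, hq2, hq3⟩ := rat_point hmem hρ hl hco huv
  obtain ⟨l', hl'⟩ := hnz m
  have hcz : CharZero M := charZero_of_injective_algebraMap (algebraMap ℂ M).injective
  obtain ⟨L, i3, i4, p, h1, h2, i0, j0, h3⟩ := uni_of (k := ℂ) (fun i => map σs (F i))
    (map σs (G l')) (fun i => by obtain ⟨d, hd⟩ := hF i; exact ⟨d, hd.map σs⟩)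
    (by obtain ⟨d, hd⟩ := hG l'; exact ⟨d, hd.map σs⟩) q
    (fun i => by
      obtain ⟨d, hd⟩ := hF i
      rw [hq1 _ d (hd.map σs)]
      intro g _
      exact hzero i _)
    (by
      obtain ⟨d, hd⟩ := hG l'
      rw [Ne, hq1 _ d (hd.map σs)]
      intro h4
      have h5 := h4 1 Nn.one_mem
      rw [one_mul] at h5
      exact hl' h5)
    (by obtain ⟨i, hi⟩ := hq3; exact ⟨i, l, hq2, hi⟩)
  apply h2
  rw [ev_poly]
  have hch : CharZero L := charZero_of_injective_algebraMap (algebraMap ℂ L).injective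
  have h6 : ∃ t, (p i0).eval t * (p j0).eval 1 ≠ (p j0).eval t * (p i0).eval 1 := by
    by_contra h7
    push Not at h7
    apply h3
    apply Polynomial.funext
    intro t
    rw [Polynomial.eval_mul, Polynomial.eval_mul, Polynomial.eval_C, Polynomial.eval_C]
    exact h7 t
  obtain ⟨t, ht⟩ := h6
  have hmm' : ∀ P : MvPolynomial (Fin (n + 1)) A, aeval p (map ((algebraMap ℂ L).comp σs) P) =
      aeval p (map σs P) := by
    intro P
    rw [← map_map, aeval_map_algebraMap]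
  have h7 := hrat L ((algebraMap ℂ L).comp σs) ((algebraMap ℂ L).injective.comp hσ) p
    (fun i => by rw [hmm']; exact h1 i) ⟨t, 1, i0, j0, ht⟩ l'
  rw [hmm'] at h7
  rw [h7, Polynomial.eval_zero]

omit [Countable A] [IsDomain A] [Finite ν] in
/-- the converse -/
theorem rat_of_fibres (h : FibresBounded F G) : RatInA F G := by
  intro L _ φ hφ p hp hc l
  by_contra hG
  have hL : CharZero L := by
    refine charZero_of_inj_zero fun N hN => ?_
    have h1 : φ (N : A) = 0 := by rw [map_natCast]; exact hN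
    have h2 := (injective_iff_map_eq_zero φ).1 hφ _ h1
    exact_mod_cast h2
  have hnr : ¬ Pool.Agent.R849.PR.RatIn (fun i => map φ (F i)) (fun l => map φ (G l)) :=
    fun h1 => hG (h1 L p hp hc l)
  obtain ⟨L', _, _, p', l0, hp', hc', hG'⟩ := Pool.Agent.R849.PR.curve_of_not _ _ hnr
  obtain ⟨M, -, hM⟩ := Pool.Agent.R849.PR.exists_coeff_bound p'
  rw [← hM] at hp' hc' hG'
  have : CharZero L' := charZero_of_injective_algebraMap (algebraMap L L').injective
  obtain ⟨e, x, h1, h2, h3⟩ := curve_seq (fun i => map φ (F i)) (fun l => map φ (G l)) l0 _ hp' hc' hG'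
  obtain ⟨a, ha, B, hB⟩ := h 1 2 e
  have hφ' : Function.Injective ((algebraMap L L').comp φ) := (algebraMap L L').injective.comp hφ
  have h4 := hB L' ((algebraMap L L').comp φ)
    (fun h0 => ha ((injective_iff_map_eq_zero _).1 hφ' a h0)) (Multiplicative ℤ) x h1
    (fun h i => by
      have h5 := h2 h i
      rw [aeval_def, eval₂_map] at h5
      exact h5)
  apply h3
  refine (Set.finite_of_encard_le_coe h4).subset ?_
  rintro P ⟨h, h0, ⟨l, hl⟩, hP⟩
  refine ⟨h, h0, ⟨l, ?_⟩, hP⟩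
  rw [aeval_def, eval₂_map] at hl
  exact hl

end main

end Pool.Agent.R393.SP
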