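import Pool.Agent.R393.SP.Main
import Pool.Agent.TH717.GO.Res

/-!
The converse in positive characteristic.
-/

set_option autoImplicit false

namespace Pool.Agent.R393.SP

open MvPolynomial Pool.Agent.Y377.ST Pool.Agent.R393.UO
open Pool.Agent.H533R3.SL (cur)

/-- values of polynomials at the elements of the field -/
theorem iterVec_add {K : Type} [Field K] {n e : ℕ} (q : Fin n → Polynomial K)
    (he : ∀ i, (q i).natDegree ≤ e) :
    IterVec 1 2 e (fun (t : Multiplicative K) i => (q i).eval (Multiplicative.toAdd t)) := by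
  let X : Fin 1 → Multiplicative K → Matrix (Fin 2) (Fin 2) K := fun _ m =>
    !![1, Multiplicative.toAdd m; 0, 1]
  let Y : Fin 1 → Multiplicative K → Matrix (Fin 2) (Fin 2) K := fun _ m =>
    !![1, -Multiplicative.toAdd m; 0, 1]
  refine ⟨X, Y, ⟨?_, ?_⟩, ?_⟩
  · intro l z
    ext i j
    fin_cases i <;> fin_cases j <;> simp [X, Y, Matrix.mul_apply, Fin.sum_univ_two]
  · intro l g i j
    refine ⟨fun m => if m = 0 then X 0 g i j else 0, fun h => ?_⟩
    rw [pev_const]
    fin_cases i <;> fin_cases j <;> simp [X, Y, Matrix.mul_apply, Fin.sum_univ_two]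
  · intro j
    obtain ⟨c, hc⟩ := pev_polyL (L := K) (ι := Ix 1 2) (0, true, 0, 1) (q j) (he j)
    refine ⟨c, fun z => ?_⟩
    rw [hc]
    simp [entries, X]

variable {A ι ν : Type} [CommRing A] {n : ℕ}

/-- For all `e` there are a nonzero element `a` of `A` and numbers `B`, `N` such that for all fields
`K` of characteristic greater than `N` and all homomorphisms `φ : A → K` with `φ a ≠ 0` all families
of complexity `(1, 2, e)` on the fibre of `F = 0` have at most `B` points off `G = 0`. -/
def FibresBoundedPos (F : ι → MvPolynomial (Fin (n + 1)) A)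
    (G : ν → MvPolynomial (Fin (n + 1)) A) : Prop :=
  ∀ e : ℕ, ∃ a : A, a ≠ 0 ∧ ∃ B N : ℕ, ∀ (K : Type) [Field K] (φ : A →+* K), φ a ≠ 0 →
    N < ringChar K → ∀ (H : Type) [Group H] (x : H → Fin (n + 1) → K), IterVec 1 2 e x →
      (∀ h i, eval₂ φ (x h) (F i) = 0) → (offV φ G x).encard ≤ B

theorem pos_of_fibres {F : ι → MvPolynomial (Fin (n + 1)) A}
    {G : ν → MvPolynomial (Fin (n + 1)) A} (h : FibresBounded F G) : FibresBoundedPos F G := by
  intro e
  obtain ⟨a, ha, B, hB⟩ := h 1 2 e
  exact ⟨a, ha, B, 0, fun K _ φ hφ _ H _ x hx hX => hB K φ hφ H x hx hX⟩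

/-- the converse in positive characteristic -/
theorem rat_of_pos [CharZero A] [Algebra.FiniteType ℤ A] {F : ι → MvPolynomial (Fin (n + 1)) A}
    {G : ν → MvPolynomial (Fin (n + 1)) A} (h : FibresBoundedPos F G) : RatInA F G := by
  classical
  intro L _ φ hφ p0 hp0 hc0 l
  by_contra hG0
  have hL : CharZero L := by
    refine charZero_of_inj_zero fun N hN => ?_
    have h1 : φ (N : A) = 0 := by rw [map_natCast]; exact hN
    have h2 := (injective_iff_map_eq_zero φ).1 hφ _ h1
    exact_mod_cast h2
  have hnr : ¬ Pool.Agent.R849.PR.RatIn (fun i => map φ (F i)) (fun l => map φ (G l)) :=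
    fun h1 => hG0 (h1 L p0 hp0 hc0 l)
  obtain ⟨L', _, _, p, l0, hp, ⟨i0, j0, hc⟩, hG⟩ := Pool.Agent.R849.PR.curve_of_not _ _ hnr
  have hL' : CharZero L' := charZero_of_injective_algebraMap (algebraMap L L').injective
  let φ' : A →+* L' := (algebraMap L L').comp φ
  have hφ' : Function.Injective φ' := (algebraMap L L').injective.comp hφ
  have hp' : ∀ i, aeval p (map φ' (F i)) = 0 := by
    intro i
    rw [← hp i, ← map_map, aeval_map_algebraMap]
  have hG' : aeval (fun i => (p i).eval 1) (map φ' (G l0)) ≠ 0 := by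
    intro h0
    apply hG
    rw [← h0, ← map_map, aeval_map_algebraMap]
  obtain ⟨e, he⟩ : ∃ e, ∀ i, (p i).natDegree ≤ e := by
    refine ⟨∑ i, (p i).natDegree, fun i => ?_⟩
    exact Finset.single_le_sum (f := fun i => (p i).natDegree) (fun _ _ => Nat.zero_le _)
      (Finset.mem_univ i)
  obtain ⟨a, ha, B, N, hB⟩ := h e
  set U : Polynomial L' := p i0 * Polynomial.C ((p j0).eval 1) -
    p j0 * Polynomial.C ((p i0).eval 1) with hU
  have hU0 : U ≠ 0 := sub_ne_zero.2 hc
  obtain ⟨m0, hm0⟩ : ∃ m, U.coeff m ≠ 0 := by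
    by_contra hcon
    push Not at hcon
    exact hU0 (Polynomial.ext fun m => by rw [hcon m, Polynomial.coeff_zero])
  set g1 : L' := aeval (fun i => (p i).eval 1) (map φ' (G l0)) with hg1
  obtain ⟨TT, hTT⟩ := (Algebra.FiniteType.out : (⊤ : Subalgebra ℤ A).FG)
  let S : Finset L' := TT.image φ' ∪ ((Finset.univ.biUnion fun i => (p i).coeffs) ∪
    {g1⁻¹, (U.coeff m0)⁻¹, (φ' a)⁻¹})
  obtain ⟨N', hN', hres⟩ := Pool.Agent.TH717.GO.exists_residue S
  obtain ⟨q, hqN, hq⟩ := Nat.exists_infinite_primes (N + N' + 1)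
  obtain ⟨Fq, _, _, hchar, ⟨g⟩⟩ := hres q hq (fun h1 => by
    have := Nat.le_of_dvd (Nat.pos_of_ne_zero hN') h1
    omega)
  let R' := Algebra.adjoin ℤ (S : Set L')
  have hS : ∀ s ∈ S, s ∈ R' := fun s hs => Algebra.subset_adjoin (Finset.mem_coe.2 hs)
  have hA : ∀ x : A, φ' x ∈ R' := by
    intro x
    have h1 : x ∈ Algebra.adjoin ℤ (TT : Set A) := by rw [hTT]; exact Algebra.mem_top
    induction h1 using Algebra.adjoin_induction with
    | mem x hx =>
      exact hS _ (Finset.mem_union_left _ (Finset.mem_image.2 ⟨x, hx, rfl⟩))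
    | algebraMap z =>
      have h2 : φ' (algebraMap ℤ A z) = algebraMap ℤ L' z := by simp
      rw [h2]
      exact Subalgebra.algebraMap_mem _ _
    | add x y _ _ hx hy => rw [map_add]; exact add_mem hx hy
    | mul x y _ _ hx hy => rw [map_mul]; exact mul_mem hx hy
  let φR : A →+* R' := φ'.codRestrict R' hA
  have hφR : (algebraMap R' L').comp φR = φ' := RingHom.ext fun x => rfl
  have hcoef : ∀ i m, (p i).coeff m ∈ R' := by
    intro i m
    by_cases h0 : (p i).coeff m = 0
    · rw [h0]
      exact zero_mem _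
    · refine hS _ (Finset.mem_union_right _ (Finset.mem_union_left _ (Finset.mem_biUnion.2
        ⟨i, Finset.mem_univ _, ?_⟩)))
      exact Polynomial.coeff_mem_coeffs h0
  have hlift : ∀ i, ∃ P : Polynomial R', P.map (algebraMap R' L') = p i ∧
      P.natDegree ≤ e := by
    intro i
    refine ⟨∑ m ∈ Finset.range (e + 1), Polynomial.C (⟨(p i).coeff m, hcoef i m⟩ : R') *
      Polynomial.X ^ m, ?_, ?_⟩
    · rw [Polynomial.map_sum]
      conv_rhs => rw [Polynomial.as_sum_range_C_mul_X_pow' (p i) (Nat.lt_succ_of_le (he i))]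
      refine Finset.sum_congr rfl fun m _ => ?_
      rw [Polynomial.map_mul, Polynomial.map_C, Polynomial.map_pow, Polynomial.map_X]
      rfl
    · refine Polynomial.natDegree_sum_le_of_forall_le _ _ fun m hm => ?_
      exact (Polynomial.natDegree_C_mul_X_pow_le _ _).trans (Nat.lt_succ_iff.1 (Finset.mem_range.1 hm))
  choose P hP hPe using hlift
  let K := AlgebraicClosure Fq
  let ψ : R' →+* K := (algebraMap Fq K).comp g
  have hKchar : ringChar K = q := by
    rw [← hchar]
    exact (Algebra.ringChar_eq Fq K).symm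
  have hinj : Function.Injective (algebraMap R' L') := Subtype.val_injective
  have hunit : ∀ x : R', (algebraMap R' L' x)⁻¹ ∈ R' → algebraMap R' L' x ≠ 0 → ψ x ≠ 0 := by
    intro x hx hx0 h0
    have h1 : x * ⟨_, hx⟩ = 1 := Subtype.ext (mul_inv_cancel₀ hx0)
    have h2 := congrArg ψ h1
    rw [map_mul, h0, zero_mul, map_one] at h2
    exact zero_ne_one h2
  have hev : ∀ i, algebraMap R' L' ((P i).eval 1) = (p i).eval 1 := by
    intro i
    rw [← hP i, Polynomial.eval_one_map]
  have hevK : ∀ i, ψ ((P i).eval 1) = ((P i).map ψ).eval 1 := by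
    intro i
    rw [Polynomial.eval_one_map]
  -- the equations
  have hFR : ∀ i, aeval P (map φR (F i)) = 0 := by
    intro i
    apply Polynomial.map_injective _ hinj
    rw [map_aevalP, Polynomial.map_zero, map_map, hφR]
    have h1 : (fun i => (P i).map (algebraMap R' L')) = p := funext hP
    rw [h1]
    exact hp' i
  have hFK : ∀ i, aeval (fun i => (P i).map ψ) (map (ψ.comp φR) (F i)) = 0 := by
    intro i
    have h1 := congrArg (Polynomial.map ψ) (hFR i)
    rw [map_aevalP, Polynomial.map_zero, map_map] at h1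
    exact h1
  have hGK : aeval (fun i => ((P i).map ψ).eval 1) (map (ψ.comp φR) (G l0)) ≠ 0 := by
    have h1 : ψ (aeval (fun i => (P i).eval 1) (map φR (G l0))) =
        aeval (fun i => ((P i).map ψ).eval 1) (map (ψ.comp φR) (G l0)) := by
      rw [map_aevalE, map_map]
      congr 1
      congr 1
      exact funext hevK
    rw [← h1]
    have h2 : algebraMap R' L' (aeval (fun i => (P i).eval 1) (map φR (G l0))) = g1 := by
      rw [map_aevalE, map_map, hφR, hg1]
      congr 1
      congr 1
      exact funext hev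
    apply hunit
    · rw [h2]
      exact hS _ (Finset.mem_union_right _ (Finset.mem_union_right _ (by simp)))
    · rw [h2]
      exact hG'
  have hcK : (P i0).map ψ * Polynomial.C (((P j0).map ψ).eval 1) ≠
      (P j0).map ψ * Polynomial.C (((P i0).map ψ).eval 1) := by
    intro h0
    have h1 : ((P i0 * Polynomial.C ((P j0).eval 1) - P j0 * Polynomial.C ((P i0).eval 1)).map
        (algebraMap R' L')) = U := by
      rw [Polynomial.map_sub, Polynomial.map_mul, Polynomial.map_mul, Polynomial.map_C,
        Polynomial.map_C, hP, hP, hev, hev]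
    have h2 : ((P i0 * Polynomial.C ((P j0).eval 1) - P j0 * Polynomial.C ((P i0).eval 1)).map
        ψ) = 0 := by
      rw [Polynomial.map_sub, Polynomial.map_mul, Polynomial.map_mul, Polynomial.map_C,
        Polynomial.map_C, hevK, hevK]
      exact sub_eq_zero.2 h0
    have h3 : algebraMap R' L' ((P i0 * Polynomial.C ((P j0).eval 1) -
        P j0 * Polynomial.C ((P i0).eval 1)).coeff m0) = U.coeff m0 := by
      rw [← Polynomial.coeff_map, h1]
    refine hunit ((P i0 * Polynomial.C ((P j0).eval 1) -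
        P j0 * Polynomial.C ((P i0).eval 1)).coeff m0) ?_ ?_ ?_
    · rw [h3]
      exact hS _ (Finset.mem_union_right _ (Finset.mem_union_right _ (by simp)))
    · rw [h3]
      exact hm0
    · rw [← Polynomial.coeff_map, h2, Polynomial.coeff_zero]
  have haK : (ψ.comp φR) a ≠ 0 := by
    change ψ (φR a) ≠ 0
    have h2 : algebraMap R' L' (φR a) = φ' a := rfl
    apply hunit
    · rw [h2]
      exact hS _ (Finset.mem_union_right _ (Finset.mem_union_right _ (by simp)))
    · rw [h2]
      intro h3
      exact ha ((injective_iff_map_eq_zero φ').1 hφ' a h3)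
  -- the family
  have hBB := hB K (ψ.comp φR) haK (by rw [hKchar]; omega) (Multiplicative K)
    (fun t i => ((P i).map ψ).eval (Multiplicative.toAdd t))
    (iterVec_add _ fun i => (Polynomial.natDegree_map_le).trans (hPe i)) (by
      intro t i
      have h1 := ev_poly (k := K) (fun i => (P i).map ψ) (map (ψ.comp φR) (F i))
        (Multiplicative.toAdd t)
      rw [hFK, Polynomial.eval_zero, aeval_def, eval₂_map] at h1
      exact h1)
  obtain ⟨M, -, hM⟩ := Pool.Agent.R849.PR.exists_coeff_bound (fun i => (P i).map ψ)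
  have hinf := Pool.Agent.R849.PR.pts_inf (k := K) (fun i => map (ψ.comp φR) (F i))
    (fun l => map (ψ.comp φR) (G l)) l0 (L := K)
    (fun (j : Fin M) a => ((P a).map ψ).coeff j) (by rw [hM]; exact hFK)
    (by rw [hM]; exact ⟨i0, j0, hcK⟩) (by rw [hM]; exact hGK) Set.univ
    (Set.infinite_univ_iff.2 inferInstance)
  apply hinf
  refine (Set.finite_of_encard_le_coe hBB).subset ?_
  rintro Q ⟨t, ⟨z, -, ht⟩, h1, ⟨l, h2⟩, h3, h4⟩
  have e1 : (fun a => ∑ j : Fin M, t j * ((P a).map ψ).coeff j) = fun a =>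
      ((P a).map ψ).eval z := by
    funext a
    have h5 := congrFun hM a
    conv_rhs => rw [← h5]
    unfold Pool.Agent.H533R3.SL.cur
    rw [Polynomial.eval_finsetSum]
    refine Finset.sum_congr rfl fun j _ => ?_
    rw [ht j, Polynomial.eval_mul, Polynomial.eval_C, Polynomial.eval_pow, Polynomial.eval_X]
    ring
  refine ⟨Multiplicative.ofAdd z, ?_, ⟨l, ?_⟩, ?_⟩
  · intro h5
    apply h3
    rw [e1]
    exact h5
  · rw [e1, aeval_def, eval₂_map] at h2
    exact h2
  · rw [h4]
    congr 1

end Pool.Agent.R393.SP
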